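import Pool.Agent.X48.StochRank2

open Matrix Finset
open scoped BigOperators

namespace Pool.Agent.Results.MP_bd2037_co.DiagonalProduct

/-- The composition of `n` with `k - s` parts equal to `r` followed by `s` parts equal to `r + 1`,
where `n = r k + s`, `r = n / k`, `s = n % k`. -/
def parts (n k : ℕ) (a : Fin k) : ℕ := if (a : ℕ) < k - n % k then n / k else n / k + 1

theorem sum_parts {n k : ℕ} (hk : 1 ≤ k) : ∑ a, parts n k a = n := by
  have h1 : ∀ a : Fin k, parts n k a = n / k + (if (a : ℕ) < k - n % k then 0 else 1) := by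
    intro a; unfold parts; split_ifs <;> rfl
  simp_rw [h1, Finset.sum_add_distrib]
  have h2 : ∑ a : Fin k, (if (a : ℕ) < k - n % k then 0 else 1) = n % k := by
    rw [Fin.sum_univ_eq_sum_range (fun a => if a < k - n % k then 0 else 1) k]
    have hs : n % k < k := Nat.mod_lt _ (by omega)
    obtain ⟨m, hm⟩ : ∃ m, k = m + n % k := ⟨k - n % k, by omega⟩
    have hm2 : k - n % k = m := by omega
    rw [hm2]
    generalize n % k = s at hm
    subst hm
    rw [Finset.sum_range_add]
    have e1 : ∑ x ∈ Finset.range m, (if x < m then 0 else 1) = 0 :=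
      Finset.sum_eq_zero fun x hx => by simp [Finset.mem_range.1 hx]
    have e2 : ∑ x ∈ Finset.range s, (if m + x < m then 0 else 1) = s := by
      simp
    rw [e1, e2, zero_add]
  rw [h2]
  simp only [Finset.sum_const, Finset.card_univ, Fintype.card_fin, smul_eq_mul]
  have := Nat.div_add_mod n k
  linarith

/-- The block diagonal matrix `J_{r_1} ⊕ ⋯ ⊕ J_{r_k}` (blocks in this order), where `J_m` is the
`m × m` matrix with all entries `1 / m`, as an `n × n` matrix. -/
noncomputable def J (n k : ℕ) (h : ∑ a, parts n k a = n) : Matrix (Fin n) (Fin n) ℝ :=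
  Matrix.reindex (finSigmaFinEquiv.trans (finCongr h)) (finSigmaFinEquiv.trans (finCongr h))
    (Matrix.blockDiagonal' fun a =>
      Matrix.of fun (_ _ : Fin (parts n k a)) => 1 / (parts n k a : ℝ))

/-- `M(n,k) = (1/r^r)^(k-s) * (1/(r+1)^(r+1))^s`, where `r = n / k`, `s = n % k`. -/
noncomputable def M (n k : ℕ) : ℝ :=
  (1 / ((n / k : ℕ) : ℝ) ^ (n / k)) ^ (k - n % k) *
    (1 / (((n / k : ℕ) : ℝ) + 1) ^ (n / k + 1)) ^ (n % k)

theorem exists_equiv_of_fiber_card {α β γ : Type*} [Fintype α] [Fintype β] [DecidableEq γ]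
    (f : α → γ) (g : β → γ)
    (h : ∀ c, Fintype.card {a // f a = c} = Fintype.card {b // g b = c}) :
    ∃ e : α ≃ β, ∀ a, g (e a) = f a := by
  let e := (Equiv.sigmaFiberEquiv f).symm.trans
    ((Equiv.sigmaCongrRight fun c => Fintype.equivOfCardEq (h c)).trans (Equiv.sigmaFiberEquiv g))
  refine ⟨e, fun a => ?_⟩
  simp only [e, Equiv.trans_apply, Equiv.sigmaFiberEquiv_symm_apply_fst]
  exact (Fintype.equivOfCardEq (h (f a)) ⟨a, rfl⟩).2

theorem fiber_card {α : Type*} [Fintype α] {q : ℕ} (f : α → ℕ) (hf : ∀ a, f a = q ∨ f a = q + 1) :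
    Fintype.card {a // f a = q + 1} + q * Fintype.card α = ∑ a, f a ∧
    Fintype.card {a // f a = q} + Fintype.card {a // f a = q + 1} = Fintype.card α := by
  classical
  constructor
  · have : ∀ a, f a = (if f a = q + 1 then 1 else 0) + q := by
      intro a; rcases hf a with h | h <;> simp [h, add_comm]
    rw [Finset.sum_congr rfl fun a _ => this a, Finset.sum_add_distrib]
    simp [Fintype.card_subtype, mul_comm]
  · rw [Fintype.card_subtype, Fintype.card_subtype, ← Finset.card_union_of_disjoint]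
    · rw [← Finset.card_univ]
      congr 1
      ext a
      simp only [Finset.mem_union, Finset.mem_filter, Finset.mem_univ, true_and]
      exact ⟨fun _ => trivial, fun _ => hf a⟩
    · rw [Finset.disjoint_left]
      intro a h1 h2
      simp only [Finset.mem_filter, Finset.mem_univ, true_and] at h1 h2
      omega

theorem fiber_card_eq {α β : Type*} [Fintype α] [Fintype β] {q : ℕ} (f : α → ℕ) (g : β → ℕ)
    (hf : ∀ a, f a = q ∨ f a = q + 1) (hg : ∀ a, g a = q ∨ g a = q + 1)
    (hc : Fintype.card α = Fintype.card β) (hs : ∑ a, f a = ∑ b, g b) (c : ℕ) :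
    Fintype.card {a // f a = c} = Fintype.card {b // g b = c} := by
  classical
  obtain ⟨f1, f2⟩ := fiber_card f hf
  obtain ⟨g1, g2⟩ := fiber_card g hg
  by_cases h1 : c = q + 1
  · subst h1; rw [hc] at f1; omega
  by_cases h2 : c = q
  · subst h2; rw [hc] at f1; omega
  · have e1 : IsEmpty {a // f a = c} := ⟨fun a => by rcases hf a.1 with h | h <;> have := a.2 <;> omega⟩
    have e2 : IsEmpty {a // g a = c} := ⟨fun a => by rcases hg a.1 with h | h <;> have := a.2 <;> omega⟩
    rw [Fintype.card_eq_zero, Fintype.card_eq_zero]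

/-- A symmetric idempotent stochastic matrix with dominating diagonal is a sum of `J`'s. -/
theorem structure_perm {n k : ℕ} (hk : 1 ≤ k) (A : Matrix (Fin n) (Fin n) ℝ)
    (h0 : ∀ i j, 0 ≤ A i j) (hrow : ∀ i, ∑ j, A i j = 1)
    (hd : ∀ i, 1 / A i i = ((n / k : ℕ) : ℝ) ∨ 1 / A i i = ((n / k + 1 : ℕ) : ℝ))
    (htr : ∑ i, A i i = k) (hsym : Aᵀ = A) (hid : A * A = A) (hmx : ∀ i j, A i j ≤ A i i)
    (hpos : ∀ i, 0 < A i i) :
    ∃ P : Equiv.Perm (Fin n), ∀ i j, A i j = J n k (sum_parts hk) (P i) (P j) := by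
  classical
  have hs : ∀ i j, A i j = A j i := fun i j => by
    conv_lhs => rw [← hsym]
    rfl
  have hz : ∀ i j, A i j = 0 ∨ A i j = A i i := by
    intro i j
    have h1 : ∑ j, A i j * (A i i - A i j) = 0 := by
      have h2 := congrFun (congrFun hid i) i
      rw [Matrix.mul_apply] at h2
      calc ∑ j, A i j * (A i i - A i j) = A i i * ∑ j, A i j - ∑ j, A i j * A j i := by
            rw [Finset.mul_sum, ← Finset.sum_sub_distrib]
            refine Finset.sum_congr rfl fun j _ => ?_
            rw [hs j i]; ring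
        _ = 0 := by rw [hrow, h2]; ring
    rw [Finset.sum_eq_zero_iff_of_nonneg
      (fun j _ => mul_nonneg (h0 i j) (sub_nonneg.2 (hmx i j)))] at h1
    rcases mul_eq_zero.1 (h1 j (Finset.mem_univ j)) with h | h
    · exact Or.inl h
    · exact Or.inr (by linarith)
  have hdd : ∀ i j, A i j ≠ 0 → A i i = A j j := by
    intro i j hij
    rcases hz i j with h | h
    · exact absurd h hij
    rcases hz j i with h' | h'
    · exact absurd (by rw [hs]; exact h') hij
    rw [← h, ← h', hs]
  let S : Setoid (Fin n) :=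
    { r := fun i j => A i j ≠ 0
      iseqv := by
        refine ⟨fun i => (hpos i).ne', fun {i j} h => by rw [hs]; exact h, fun {i j l} h1 h2 => ?_⟩
        have h3 := congrFun (congrFun hid i) l
        rw [Matrix.mul_apply] at h3
        have h4 : A i j * A j l ≤ ∑ m, A i m * A m l :=
          Finset.single_le_sum (f := fun m => A i m * A m l)
            (fun m _ => mul_nonneg (h0 i m) (h0 m l)) (Finset.mem_univ j)
        have h5 : 0 < A i j * A j l :=
          mul_pos (lt_of_le_of_ne (h0 i j) (Ne.symm h1)) (lt_of_le_of_ne (h0 j l) (Ne.symm h2))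
        exact (by rw [← h3]; linarith : 0 < A i l).ne' }
  let Q := Quotient S
  let c : Fin n → Q := fun i => Quotient.mk S i
  have hc : ∀ i j, c i = c j ↔ A i j ≠ 0 := fun i j => Quotient.eq (r := S)
  haveI : Fintype Q := Fintype.ofSurjective c (fun x => Quotient.exists_rep x)
  let sz : Q → ℕ := fun x => Fintype.card {i // c i = x}
  have hsz : ∀ i, (sz (c i) : ℝ) * A i i = 1 := by
    intro i
    have h1 : ∑ j, A i j = ∑ j, if c j = c i then A i i else 0 := by
      refine Finset.sum_congr rfl fun j _ => ?_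
      by_cases h : c j = c i
      · rw [if_pos h]
        have h := (hc j i).1 h
        rcases hz i j with h' | h'
        · rw [hs] at h'; exact absurd h' h
        · exact h'
      · rw [if_neg h]
        rw [hc j i] at h
        rw [hs]; exact not_not.1 h
    rw [hrow, ← Finset.sum_filter, Finset.sum_const, nsmul_eq_mul] at h1
    rw [h1]
    simp only [sz, Fintype.card_subtype]
  have hszd : ∀ i, 1 / A i i = (sz (c i) : ℝ) := fun i => by
    rw [div_eq_iff (hpos i).ne', hsz]
  have hszq : ∀ x, sz x = n / k ∨ sz x = n / k + 1 := by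
    intro x
    obtain ⟨i, rfl⟩ := Quotient.exists_rep x
    rcases hd i with h | h
    · left
      have : (sz (c i) : ℝ) = ((n / k : ℕ) : ℝ) := by rw [← h, hszd]
      exact_mod_cast this
    · right
      have : (sz (c i) : ℝ) = ((n / k + 1 : ℕ) : ℝ) := by rw [← h, hszd]
      exact_mod_cast this
  have hsum : ∑ x, sz x = n := by
    have := Fintype.card_congr (Equiv.sigmaFiberEquiv c)
    rw [Fintype.card_sigma, Fintype.card_fin] at this
    exact this
  have hcard : Fintype.card Q = k := by
    have h1 : ∑ i, A i i = ∑ x : Q, ∑ i : {i // c i = x}, A i i := by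
      rw [← (Equiv.sigmaFiberEquiv c).sum_comp (fun i => A i i), Fintype.sum_sigma]
      rfl
    have h2 : ∀ x : Q, ∑ i : {i // c i = x}, A (i : Fin n) i = 1 := by
      intro x
      have h3 : ∀ i : {i // c i = x}, A (i : Fin n) i = 1 / (sz x : ℝ) := by
        intro i
        have := hszd i.1
        rw [i.2] at this
        rw [← this, one_div_one_div]
      have hpx : (sz x : ℝ) ≠ 0 := by
        obtain ⟨i, rfl⟩ := Quotient.exists_rep x
        intro h
        have := hsz i
        change ((sz (c i) : ℕ) : ℝ) = 0 at h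
        rw [h] at this
        simp at this
      rw [Finset.sum_congr rfl fun i _ => h3 i]
      rw [Finset.sum_const, Finset.card_univ, nsmul_eq_mul]
      change (sz x : ℝ) * (1 / (sz x : ℝ)) = 1
      field_simp
    rw [h1, Finset.sum_congr rfl fun x _ => h2 x] at htr
    simp at htr
    exact_mod_cast htr
  obtain ⟨e, he⟩ := exists_equiv_of_fiber_card sz (parts n k)
    (fiber_card_eq (q := n / k) sz (parts n k) hszq
      (fun a => by unfold parts; split_ifs <;> simp) (by rw [hcard, Fintype.card_fin])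
      (by rw [hsum, sum_parts hk]))
  obtain ⟨τ, hτ⟩ := exists_equiv_of_fiber_card (fun i => e (c i))
    (fun x : (Σ a : Fin k, Fin (parts n k a)) => x.1) (by
      intro a
      have e1 : Fintype.card {i // e (c i) = a} = sz (e.symm a) := by
        simp only [sz]
        refine Fintype.card_congr (Equiv.subtypeEquivRight fun i => ?_)
        rw [Equiv.eq_symm_apply]
      have e2 : Fintype.card {x : (Σ a : Fin k, Fin (parts n k a)) // x.1 = a} = parts n k a := by
        rw [Fintype.card_congr (Equiv.sigmaSubtype a), Fintype.card_fin]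
      rw [e1, e2, ← he, Equiv.apply_symm_apply])
  refine ⟨τ.trans (finSigmaFinEquiv.trans (finCongr (sum_parts hk))), fun i j => ?_⟩
  simp only [J, Matrix.reindex_apply, Matrix.submatrix_apply, Equiv.trans_apply,
    Equiv.symm_trans_apply, Equiv.symm_apply_apply]
  rw [Matrix.blockDiagonal'_apply]
  have h1 := hτ i
  have h2 := hτ j
  by_cases hij : A i j = 0
  · have hne : ¬ (τ i).1 = (τ j).1 := by
      rw [h1, h2, e.injective.eq_iff, hc]
      exact not_not.2 hij
    rw [dif_neg hne, hij]
  · have heq : (τ i).1 = (τ j).1 := by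
      rw [h1, h2, e.injective.eq_iff, hc]
      exact hij
    rw [dif_pos heq, Matrix.of_apply, h1, he]
    rcases hz i j with h | h
    · exact absurd h hij
    · rw [h, ← hszd, one_div_one_div]

theorem J_diag_prod {n k : ℕ} (hk : 1 ≤ k) (h : ∑ a, parts n k a = n) :
    ∏ i, J n k h i i = M n k := by
  rw [← (finSigmaFinEquiv.trans (finCongr h)).prod_comp (fun i => J n k h i i)]
  have : ∀ x : (Σ a : Fin k, Fin (parts n k a)),
      J n k h ((finSigmaFinEquiv.trans (finCongr h)) x) ((finSigmaFinEquiv.trans (finCongr h)) x)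
        = 1 / (parts n k x.1 : ℝ) := by
    intro x
    simp only [J, Matrix.reindex_apply, Matrix.submatrix_apply, Equiv.symm_apply_apply]
    rw [Matrix.blockDiagonal'_apply]
    simp
  rw [Finset.prod_congr rfl fun x _ => this x, Fintype.prod_sigma]
  simp only [Finset.prod_const, Finset.card_univ, Fintype.card_fin]
  have h1 : ∀ a : Fin k, (1 / (parts n k a : ℝ)) ^ (parts n k a) =
      if (a : ℕ) < k - n % k then 1 / ((n / k : ℕ) : ℝ) ^ (n / k)
      else 1 / (((n / k : ℕ) : ℝ) + 1) ^ (n / k + 1) := by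
    intro a
    unfold parts
    split_ifs
    · rw [div_pow, one_pow]
    · rw [div_pow, one_pow]; push_cast; rfl
  simp_rw [h1]
  rw [Fin.prod_univ_eq_prod_range (fun a => if a < k - n % k then 1 / ((n / k : ℕ) : ℝ) ^ (n / k)
      else 1 / (((n / k : ℕ) : ℝ) + 1) ^ (n / k + 1)) k]
  have hs : n % k < k := Nat.mod_lt _ (by omega)
  unfold M
  generalize 1 / ((n / k : ℕ) : ℝ) ^ (n / k) = X
  generalize 1 / (((n / k : ℕ) : ℝ) + 1) ^ (n / k + 1) = Y
  obtain ⟨m, hm⟩ : ∃ m, k = m + n % k := ⟨k - n % k, by omega⟩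
  have hm2 : k - n % k = m := by omega
  rw [hm2]
  generalize n % k = s at hm
  subst hm
  rw [Finset.prod_range_add]
  congr 1
  · rw [Finset.prod_congr rfl (g := fun _ => X) fun x hx => by simp [Finset.mem_range.1 hx]]
    simp
  · simp

theorem J_symm {n k : ℕ} (h : ∑ a, parts n k a = n) : (J n k h)ᵀ = J n k h := by
  unfold J
  rw [Matrix.transpose_reindex, Matrix.blockDiagonal'_transpose]
  congr 2

theorem perm_form {n : ℕ} (X : Matrix (Fin n) (Fin n) ℝ) (P σ : Equiv.Perm (Fin n)) :
    (P.permMatrix ℝ)ᵀ * X * P.permMatrix ℝ * σ.permMatrix ℝ =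
      Matrix.of fun i j => X (P.symm i) (P.symm (σ.symm j)) := by
  rw [Matrix.transpose_permMatrix]
  ext i j
  simp [Equiv.Perm.permMatrix, PEquiv.toMatrix_toPEquiv_mul, PEquiv.mul_toMatrix_toPEquiv]

theorem M_eq (n k : ℕ) : M n k = Pool.Agent.X48.StochRank.M n k := rfl

theorem row_case {n k : ℕ} (hk : 1 ≤ k) (hkn : k ≤ n) (A : Matrix (Fin n) (Fin n) ℝ)
    (h0 : ∀ i j, 0 ≤ A i j) (hrow : ∀ i, ∑ j, A i j = 1) (hr : A.rank ≤ k) :
    ∏ i, A i i ≤ M n k ∧ (∏ i, A i i = M n k →
      ∃ P : Equiv.Perm (Fin n), ∀ i j, A i j = J n k (sum_parts hk) (P i) (P j)) := by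
  have hA : A ∈ Pool.Agent.X48.StochRank.SS (Fin n) k := ⟨h0, hrow, hr⟩
  refine ⟨Pool.Agent.X48.StochRank.diag_le hk hkn (Fintype.card_fin n) hA, fun he => ?_⟩
  obtain ⟨s1, s2, s3, s4, s5, s6⟩ :=
    Pool.Agent.X48.StochRank.eq_structure hk hkn (Fintype.card_fin n) hA he
  exact structure_perm hk A h0 hrow s1 s2 s3 s4 s5 s6

/-- **Main theorem.** -/
theorem result (n k : ℕ) (hk : 1 ≤ k) (hkn : k ≤ n) (σ : Equiv.Perm (Fin n))
    (A : Matrix (Fin n) (Fin n) ℝ) (h0 : ∀ i j, 0 ≤ A i j)
    (hst : (∀ i, ∑ j, A i j = 1) ∨ (∀ j, ∑ i, A i j = 1)) (hr : A.rank ≤ k) :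
    ∏ i, A i (σ i) ≤ M n k ∧
    (∏ i, A i (σ i) = M n k ↔
      ∃ P : Equiv.Perm (Fin n),
        A = (P.permMatrix ℝ)ᵀ * J n k (sum_parts hk) * P.permMatrix ℝ * σ.permMatrix ℝ) := by
  let B : Matrix (Fin n) (Fin n) ℝ := A.submatrix id σ
  have hB0 : ∀ i j, 0 ≤ B i j := fun i j => h0 _ _
  have hBr : B.rank ≤ k := (Matrix.rank_submatrix_le _ _ _).trans hr
  have main : ∏ i, B i i ≤ M n k ∧ (∏ i, B i i = M n k →
      ∃ P : Equiv.Perm (Fin n), ∀ i j, B i j = J n k (sum_parts hk) (P i) (P j)) := by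
    rcases hst with h | h
    · refine row_case hk hkn B hB0 (fun i => ?_) hBr
      rw [← h i]
      exact Equiv.sum_comp σ (fun j => A i j)
    · have hT := row_case hk hkn Bᵀ (fun i j => hB0 j i) (fun i => by
        simp only [Matrix.transpose_apply, B, Matrix.submatrix_apply, id]; exact h (σ i))
        (by rw [Matrix.rank_transpose]; exact hBr)
      refine ⟨hT.1, fun he => ?_⟩
      obtain ⟨P, hP⟩ := hT.2 he
      refine ⟨P, fun i j => ?_⟩
      have h1 := hP j i
      rw [Matrix.transpose_apply] at h1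
      rw [h1]
      conv_lhs => rw [← J_symm (sum_parts hk)]
      rfl
  refine ⟨main.1, fun he => ?_, ?_⟩
  · obtain ⟨P, hP⟩ := main.2 he
    refine ⟨P.symm, ?_⟩
    rw [perm_form]
    ext i j
    have := hP i (σ.symm j)
    simpa [B] using this
  · rintro ⟨P, rfl⟩
    rw [perm_form]
    simp only [Matrix.of_apply, Equiv.symm_apply_apply]
    rw [← J_diag_prod hk (sum_parts hk)]
    exact Equiv.prod_comp P.symm (fun i => J n k (sum_parts hk) i i)

end Pool.Agent.Results.MP_bd2037_co.DiagonalProduct
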